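import Mathlib

namespace Pool.Agent.Results.MP_ddf116_an.Locate

open Set

variable {X : Type*} [NormedAddCommGroup X] [NormedSpace ℝ X]

/-- Monotone operators, given by their graphs. -/
def Mono (T : Set (X × StrongDual ℝ X)) : Prop :=
  ∀ p ∈ T, ∀ q ∈ T, 0 ≤ (p.2 - q.2) (p.1 - q.1)

/-- `V` locates `T`. -/
def Locates (V : Set X) (T : Set (X × StrongDual ℝ X)) : Prop :=
  ∀ p : X × StrongDual ℝ X, p.1 ∈ V → (∀ q ∈ T, q.1 ∈ V → 0 ≤ (p.2 - q.2) (p.1 - q.1)) →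
    p.1 ∈ Prod.fst '' T

theorem result : ∃ (T : Set (ℂ × StrongDual ℝ ℂ)) (V : Set ℂ), Mono T ∧ IsOpen V ∧ Convex ℝ V ∧
    (V ∩ Prod.fst '' T).Nonempty ∧ Locates (closure V) T ∧ ¬ Locates V T := by
  refine ⟨{p | p.1.im = 0 ∧ (p.2 = 0 ∨ p.1 = 1 ∧ ∃ s : ℝ, p.2 = s • Complex.imCLM)},
    Metric.ball 0 1, ?_, Metric.isOpen_ball, convex_ball _ _,
    ⟨0, by simp, (0, 0), ⟨by simp, Or.inl rfl⟩, rfl⟩, ?_, fun h => ?_⟩
  · rintro p ⟨p1, p2⟩ q ⟨q1, q2⟩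
    rcases p2 with p2 | ⟨-, s, p2⟩ <;> rcases q2 with q2 | ⟨-, t, q2⟩ <;> simp [p1, p2, q1, q2]
  · intro p _ h
    refine ⟨(p.1, 0), ⟨?_, Or.inl rfl⟩, rfl⟩
    by_contra hc
    have := h (1, ((p.2 (p.1 - 1) + 1) / p.1.im) • Complex.imCLM) ⟨by simp, Or.inr ⟨rfl, _, rfl⟩⟩
      (by rw [closure_ball _ one_ne_zero]; simp)
    simp only [_root_.sub_apply, _root_.smul_apply, Complex.imCLM_apply, Complex.sub_im,
      Complex.one_im, sub_zero, smul_eq_mul, div_mul_cancel₀ _ hc] at this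
    linarith
  · obtain ⟨q, ⟨q1, -⟩, q2⟩ := h (Complex.I / 2, 0) (by simp; norm_num) (by
      rintro q ⟨-, q2 | ⟨q2, -⟩⟩ hq
      · simp [q2]
      · simp [q2] at hq)
    rw [q2] at q1
    simp at q1

end Pool.Agent.Results.MP_ddf116_an.Locate
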